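import Pool.Agent.Helper93.SH.Vf

/-!
PROJECT ALLQ (MP_274814_nt), block E5, file g: a theta function whose Taylor coefficients at `0` are
algebraic has algebraic (normalised) values and first derivatives at all torsion points.
-/

set_option autoImplicit false

namespace Pool.Agent.Helper93.SH

open Finset Complex Filter Topology
open Pool.Agent.Helper13.LT (PS adg mem_adg cv)

noncomputable section

variable {ι : Type} [Fintype ι]

theorem eval_theta [DecidableEq ι] {B : (ι → ℂ) → (ι → ℂ) → ℂ} (hB : HB B) {f : (ι → ℂ) → ℂ}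
    (hf : AE f) (Λ : AddSubgroup (ι → ℂ))
    (hqp : ∀ l ∈ Λ, ∀ z, f (z + l) = Complex.exp (2 * B l z + B l l) * f z)
    (hco : ∃ R : ℝ, ∀ z, ∃ l ∈ Λ, ‖z - l‖ ≤ R) {n : ℕ} (hn : 2 ≤ n) {p : ι → ℂ}
    (hp : ((n : ℂ) - 1) • p ∈ Λ) (hne : f p ≠ 0) :
    IsAlgebraic ℚ (f p * Complex.exp (-(B p p))) ∧
      ∀ u, IsAlgebraic ℚ ((fderiv ℂ f p (Pi.single u 1) - 2 * B p (Pi.single u 1) * f p) *
        Complex.exp (-(B p p))) := by
  have hqp' : ∀ l ∈ Λ, ∀ z, f (z + l) = ea B l z * f z := hqp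
  have hfd := hf.diff
  have hnp : (n : ℂ) • p = p + ((n : ℂ) - 1) • p := by
    rw [sub_smul, one_smul]
    abel
  have hfn : f ((n : ℂ) • p) = ea B (((n : ℂ) - 1) • p) p * f p := by
    rw [hnp, hqp' _ hp]
  have hfn0 : f ((n : ℂ) • p) ≠ 0 := by
    rw [hfn]
    exact mul_ne_zero (ea_ne _ _ _) hne
  have hn1 : (n : ℂ) - 1 ≠ 0 := by
    intro h1
    have h2 : (n : ℂ) = ((1 : ℕ) : ℂ) := by
      push_cast
      linear_combination h1
    have h3 : n = 1 := by exact_mod_cast h2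
    omega
  have hconj : (starRingEnd ℂ) ((n : ℂ) - 1) = (n : ℂ) - 1 := by
    rw [map_sub, map_one, conj_natCast]
  -- the value
  have hX : IsAlgebraic ℚ (f p * Complex.exp (-(B p p))) := by
    have h1 := eval_core hB hf hqp' hco hn hp hne (N := n ^ 2 + 3) (by omega)
      (Nf := fun z => f ((n : ℂ) • z) ^ 4 * f z ^ 3) (((hf.scale n).pow 4).mul (hf.pow 3)) (by
        intro l hl z
        rw [qp_n hB hqp' n hl z, hqp' l hl z]
        ring)
    have h2 : n ^ 2 - 1 ≠ 0 := by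
      have h3 : 2 * 2 ≤ n * n := Nat.mul_le_mul hn hn
      rw [sq]
      omega
    apply IsAlgebraic.of_pow (n := n ^ 2 - 1) (Nat.pos_of_ne_zero h2)
    have h3 : (f p * Complex.exp (-(B p p))) ^ (n ^ 2 - 1) =
        (f ((n : ℂ) • p) ^ 4 * f p ^ 3 / (f p ^ (n ^ 2 + 3) * f ((n : ℂ) • p) ^ 3))⁻¹ := by
      have h4 : ea B (((n : ℂ) - 1) • p) p * Complex.exp (-(B p p)) ^ (n ^ 2 - 1) = 1 := by
        rw [ea, ← exp_nat_mul, ← exp_add, hB.smul_left, hB.smul_left, hB.smul_right, hconj]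
        have h5 : ((n ^ 2 - 1 : ℕ) : ℂ) = (n : ℂ) ^ 2 - 1 := by
          rw [Nat.cast_sub (Nat.one_le_iff_ne_zero.2 (by positivity))]
          push_cast
          ring
        rw [h5]
        have h6 : 2 * (((n : ℂ) - 1) * B p p) + ((n : ℂ) - 1) * (((n : ℂ) - 1) * B p p) +
            ((n : ℂ) ^ 2 - 1) * -B p p = 0 := by ring
        rw [h6, exp_zero]
      have h5 : f p ^ (n ^ 2 + 3) = f p ^ (n ^ 2 - 1) * f p * f p ^ 3 := by
        rw [← pow_succ, ← pow_add]
        congr 1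
        omega
      rw [mul_pow, h5, inv_div]
      have h6 : f p ^ (n ^ 2 - 1) * f p * f p ^ 3 * f ((n : ℂ) • p) ^ 3 /
          (f ((n : ℂ) • p) ^ 4 * f p ^ 3) = f p ^ (n ^ 2 - 1) * f p / f ((n : ℂ) • p) := by
        field_simp
      rw [h6, hfn, eq_div_iff (mul_ne_zero (ea_ne _ _ _) hne)]
      linear_combination f p ^ (n ^ 2 - 1) * f p * h4
    rw [h3]
    exact h1.inv
  refine ⟨hX, fun u => ?_⟩
  have h1 := eval_core hB hf hqp' hco hn hp hne (N := 3) le_rfl
    (Nf := fun z => (pd u f ((n : ℂ) • z) * f z - (n : ℂ) * pd u f z * f ((n : ℂ) • z)) *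
      f z ^ 2 * f ((n : ℂ) • z) ^ 2)
    ((((((hf.pd u).scale n).mul hf).sub
      (((hf.pd u).smul (isAlgebraic_natCast n)).mul (hf.scale n))).mul (hf.pow 2)).mul
      ((hf.scale n).pow 2)) (by
        intro l hl z
        have h2 : pd u f (z + l) = ea B l z * (2 * B l (Pi.single u 1) * f z + pd u f z) :=
          qp_deriv hB hfd hqp' hl z _
        have h3 : pd u f ((n : ℂ) • (z + l)) = ea B l z ^ (n ^ 2) *
            (2 * (n * B l (Pi.single u 1)) * f ((n : ℂ) • z) + pd u f ((n : ℂ) • z)) := by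
          have h4 := qp_deriv hB hfd hqp' (nsmul_mem' (n := n) hl) ((n : ℂ) • z) (Pi.single u 1)
          rw [← smul_add, ea_smul hB, hB.smul_left, conj_natCast] at h4
          exact h4
        rw [qp_n hB hqp' n hl z, hqp' l hl z, h2, h3]
        ring)
  have h2 : pd u f ((n : ℂ) • p) = ea B (((n : ℂ) - 1) • p) p *
      (2 * (((n : ℂ) - 1) * B p (Pi.single u 1)) * f p + pd u f p) := by
    have h3 := qp_deriv hB hfd hqp' hp p (Pi.single u 1)
    rw [← hnp, hB.smul_left, hconj] at h3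
    exact h3
  have h3 : (pd u f ((n : ℂ) • p) * f p - (n : ℂ) * pd u f p * f ((n : ℂ) • p)) *
      f p ^ 2 * f ((n : ℂ) • p) ^ 2 / (f p ^ 3 * f ((n : ℂ) • p) ^ 3) =
      -((n : ℂ) - 1) * ((pd u f p - 2 * B p (Pi.single u 1) * f p) / f p) := by
    rw [h2, hfn]
    have h4 := ea_ne B (((n : ℂ) - 1) • p) p
    field_simp
    ring
  rw [h3] at h1
  have h4 : IsAlgebraic ℚ ((n : ℂ) - 1) := (isAlgebraic_natCast n).sub isAlgebraic_one
  have h5 : (fderiv ℂ f p (Pi.single u 1) - 2 * B p (Pi.single u 1) * f p) *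
        Complex.exp (-(B p p)) = (-((n : ℂ) - 1))⁻¹ *
      (-((n : ℂ) - 1) * ((pd u f p - 2 * B p (Pi.single u 1) * f p) / f p)) *
      (f p * Complex.exp (-(B p p))) := by
    have h6 : -((n : ℂ) - 1) ≠ 0 := neg_ne_zero.2 hn1
    rw [inv_mul_cancel_left₀ h6]
    change (pd u f p - 2 * B p (Pi.single u 1) * f p) * _ = _
    field_simp
  rw [h5]
  exact (h4.neg.inv.mul h1).mul hX

end

end Pool.Agent.Helper93.SH
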