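import Pool.Agent.Helper93.SH.Vc

/-!
PROJECT ALLQ (MP_274814_nt), block E5, file d: if the differentials of the functions
`D3 φ m / f ^ 3` at `p` all vanish on `v`, then `∂_v f / f` is affine.
-/

set_option autoImplicit false

namespace Pool.Agent.Helper93.SH

open Finset Complex Filter Topology
open Pool.Agent.Helper13.LT (PS adg mem_adg cv)
open Pool.Agent.Helper96.LU (gb ps_gb ps_shift)

noncomputable section

variable {ι : Type} [Fintype ι]

/-- a function with `R (2 w) = - 2 R (-w)` near `0`, differentiable at `0`, is linear near `0` -/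
theorem linear_of_scale {R : (ι → ℂ) → ℂ} {U : Set (ι → ℂ)} {r : ℝ}
    (hU : ∀ w : ι → ℂ, ‖w‖ < r → w ∈ U) (hR : ∀ w : ι → ℂ, (2 : ℂ) • w ∈ U → -w ∈ U →
      R ((2 : ℂ) • w) + 2 * R (-w) = 0) (h0 : R 0 = 0) {L : (ι → ℂ) →L[ℂ] ℂ}
    (hL : HasFDerivAt R L 0) (w : ι → ℂ) (hw : ‖w‖ < r) : R w = L w := by
  have h4 : ∀ w : ι → ℂ, ‖w‖ < r → R w = 4 * R ((4 : ℂ)⁻¹ • w) := by
    intro w hw
    have hr : 0 < r := lt_of_le_of_lt (norm_nonneg w) hw
    have a1 := hR ((2 : ℂ)⁻¹ • w) (hU _ (by
      rw [smul_smul, mul_inv_cancel₀ (two_ne_zero), one_smul]; exact hw)) (hU _ (by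
      rw [norm_neg, norm_smul]
      have : ‖(2 : ℂ)⁻¹‖ = 1 / 2 := by simp
      rw [this]
      linarith [norm_nonneg w]))
    have a2 := hR (-((4 : ℂ)⁻¹ • w)) (hU _ (by
      rw [smul_neg, norm_neg, smul_smul, norm_smul]
      have : ‖(2 : ℂ) * (4 : ℂ)⁻¹‖ = 1 / 2 := by norm_num
      rw [this]
      linarith [norm_nonneg w])) (hU _ (by
      rw [neg_neg, norm_smul]
      have : ‖(4 : ℂ)⁻¹‖ = 1 / 4 := by norm_num
      rw [this]
      linarith [norm_nonneg w]))
    have e1 : (2 : ℂ) • (2 : ℂ)⁻¹ • w = w := by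
      rw [smul_smul, mul_inv_cancel₀ (two_ne_zero), one_smul]
    have e2 : (2 : ℂ) • -((4 : ℂ)⁻¹ • w) = -((2 : ℂ)⁻¹ • w) := by
      rw [smul_neg, smul_smul]
      congr 2
      norm_num
    rw [e1] at a1
    rw [e2, neg_neg] at a2
    linear_combination a1 - 2 * a2
  have h5 : ∀ k : ℕ, R w = 4 ^ k * R (((4 : ℂ)⁻¹) ^ k • w) := by
    intro k
    induction k with
    | zero => simp
    | succ k ih =>
      have hk : ‖((4 : ℂ)⁻¹) ^ k • w‖ < r := by
        rw [norm_smul, norm_pow]
        have h6 : ‖(4 : ℂ)⁻¹‖ = 1 / 4 := by norm_num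
        rw [h6]
        have h7 : (1 / 4 : ℝ) ^ k ≤ 1 := pow_le_one₀ (by norm_num) (by norm_num)
        exact lt_of_le_of_lt (mul_le_of_le_one_left (norm_nonneg w) h7) hw
      rw [ih, h4 _ hk, smul_smul, ← pow_succ', pow_succ (4 : ℂ)]
      ring
  have h6 : HasDerivAt (fun t : ℂ => R (t • w)) (L w) 0 := by
    have h7 : HasDerivAt (fun t : ℂ => t • w) ((1 : ℂ) • w) 0 :=
      (hasDerivAt_id (0 : ℂ)).smul_const w
    rw [one_smul] at h7
    have h8 : HasFDerivAt R L ((0 : ℂ) • w) := by
      rw [zero_smul]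
      exact hL
    exact h8.comp_hasDerivAt (0 : ℂ) h7
  have h7 := hasDerivAt_iff_tendsto_slope.1 h6
  have h8 : Tendsto (fun k : ℕ => ((4 : ℂ)⁻¹) ^ k) atTop (𝓝[≠] 0) := by
    refine tendsto_nhdsWithin_iff.2 ⟨?_, Filter.Eventually.of_forall fun k => ?_⟩
    · exact tendsto_pow_atTop_nhds_zero_of_norm_lt_one (by norm_num)
    · exact pow_ne_zero _ (by norm_num)
  have h9 := h7.comp h8
  refine tendsto_nhds_unique (tendsto_const_nhds (x := R w) (f := (atTop : Filter ℕ))) ?_
  refine h9.congr fun k => ?_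
  simp only [Function.comp_apply, slope, sub_zero, vsub_eq_sub, zero_smul, h0, smul_eq_mul]
  rw [h5 k, inv_pow, inv_inv]

/-- if the differentials of all `D3 φ m / f ^ 3` at `p` vanish on `v`, then `∂_v f / f` is affine -/
theorem nondeg_affine [DecidableEq ι] {φ : (ι → ℕ) → ℂ} {f : (ι → ℂ) → ℂ} (h : PS φ f)
    {p v : ι → ℂ} (hp : f p ≠ 0)
    (hD : ∀ m, HasDerivAt (fun t : ℂ => D3 φ m (p + t • v) / f (p + t • v) ^ 3) 0 0) :
    ∃ L : (ι → ℂ) →L[ℂ] ℂ, ∀ z, fderiv ℂ f z v = (fderiv ℂ f p v / f p + L (z - p)) * f z := by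
  set g : (ι → ℂ) → ℂ := fun z => fderiv ℂ f z v with hg
  have hgp : PS (dv v φ) g := ps_dv h v
  have hgd : Differentiable ℂ g := hgp.diff
  have hfd : Differentiable ℂ f := h.diff
  set κ : ℂ := g p / f p with hκ
  set D' : (ι → ℕ) → ℂ := fun m =>
    tri (fun b => gb (dv v φ) b p) (fun b => gb φ b p) (fun b => gb φ b p) m +
        tri (fun b => gb φ b p) (fun b => gb (dv v φ) b p) (fun b => gb φ b p) m +
        tri (fun b => gb φ b p) (fun b => gb φ b p) (fun b => gb (dv v φ) b p) m with hD'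
  have h1 : ∀ m, D' m = 3 * κ * D3 φ m p := by
    intro m
    have h2 := D3_deriv h v p m
    have h3 : HasDerivAt (fun t : ℂ => f (p + t • v)) (g p) 0 := hasDerivAt_line hfd p v
    have h4 := h2.div (h3.pow 3) (by simpa using hp)
    have h5 := h4.unique (hD m)
    simp only [zero_smul, add_zero, Pi.pow_apply] at h5
    rw [div_eq_zero_iff] at h5
    rcases h5 with h5 | h5
    · rw [hκ]
      have h6 : f p ^ 2 ≠ 0 := pow_ne_zero _ hp
      have h7 : D' m * f p ^ 3 = D3 φ m p * (3 * f p ^ 2 * g p) := by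
        rw [hD']
        push_cast at h5
        linear_combination h5
      field_simp
      have h8 : f p ^ 2 * (D' m * f p) = f p ^ 2 * (3 * g p * D3 φ m p) := by
        linear_combination h7
      exact mul_left_cancel₀ h6 h8
    · exact absurd h5 (pow_ne_zero _ (pow_ne_zero _ hp))
  have h2 : ∀ w : ι → ℂ, g (p + (2 : ℂ) • w) * f (p - w) * f (p - w) +
      f (p + (2 : ℂ) • w) * g (p - w) * f (p - w) + f (p + (2 : ℂ) • w) * f (p - w) * g (p - w) =
      3 * κ * (f (p + (2 : ℂ) • w) * f (p - w) * f (p - w)) := by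
    intro w
    have h3 : PS D' (fun w => g (p + (2 : ℂ) • w) * f (p - w) * f (p - w) +
        f (p + (2 : ℂ) • w) * g (p - w) * f (p - w) +
        f (p + (2 : ℂ) • w) * f (p - w) * g (p - w)) :=
      ((ps_tri (ps_shift hgp p) (ps_shift h p) (ps_shift h p)).add
        (ps_tri (ps_shift h p) (ps_shift hgp p) (ps_shift h p))).add
        (ps_tri (ps_shift h p) (ps_shift h p) (ps_shift hgp p))
    have h4 := (ps_D3 h p).smul (3 * κ)
    rw [funext h1] at h3
    exact (h3 w).unique (h4 w)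
  set U : Set (ι → ℂ) := {w | f (p + w) ≠ 0} with hU
  have hUo : U ∈ 𝓝 (0 : ι → ℂ) := by
    have h3 : Continuous fun w : ι → ℂ => f (p + w) :=
      hfd.continuous.comp (continuous_const.add continuous_id)
    exact h3.continuousAt.eventually_ne (by simpa using hp)
  obtain ⟨r, hr, hrU⟩ := Metric.mem_nhds_iff.1 hUo
  set R : (ι → ℂ) → ℂ := fun w => g (p + w) / f (p + w) - κ with hR
  have hRd : DifferentiableAt ℂ R 0 := by
    have h3 : DifferentiableAt ℂ (fun w : ι → ℂ => g (p + w)) 0 :=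
      (hgd _).comp (0 : ι → ℂ) ((differentiableAt_const p).add differentiableAt_id)
    have h4 : DifferentiableAt ℂ (fun w : ι → ℂ => f (p + w)) 0 :=
      (hfd _).comp (0 : ι → ℂ) ((differentiableAt_const p).add differentiableAt_id)
    have h5 : DifferentiableAt ℂ (fun w : ι → ℂ => g (p + w) * (f (p + w))⁻¹) 0 :=
      h3.mul (h4.fun_inv (by simpa using hp))
    simp only [← div_eq_mul_inv] at h5
    exact h5.sub_const κ
  have hlin := linear_of_scale (R := R) (U := U) (r := r) (fun w hw => hrU (by simpa using hw))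
    (by
      intro w h3 h4
      have h5 := h2 w
      have h3' : f (p + (2 : ℂ) • w) ≠ 0 := h3
      have h4' : f (p - w) ≠ 0 := by
        rw [sub_eq_add_neg]
        exact h4
      rw [hR]
      simp only
      rw [← sub_eq_add_neg p w]
      field_simp
      have h6 : f (p - w) * (g (p + (2 : ℂ) • w) * f (p - w) +
        2 * (f (p + (2 : ℂ) • w) * g (p - w))) =
        f (p - w) * (3 * κ * (f (p + (2 : ℂ) • w) * f (p - w))) := by
        linear_combination h5
      have h7 := mul_left_cancel₀ h4' h6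
      linear_combination h7)
    (by simp [hR, hκ]) hRd.hasFDerivAt
  set L := fderiv ℂ R 0 with hLdef
  refine ⟨L, fun z => ?_⟩
  -- identity theorem along the line through `p` and `z`
  set w : ι → ℂ := z - p with hw
  set H : ℂ → ℂ := fun t => g (p + t • w) - (κ + t * L w) * f (p + t • w) with hH
  have hHd : Differentiable ℂ H := by
    have h3 : Differentiable ℂ fun t : ℂ => p + t • w :=
      (differentiable_const p).add (differentiable_id.smul_const w)
    exact (hgd.comp h3).sub (((differentiable_const κ).add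
      (differentiable_id.mul_const (L w))).mul (hfd.comp h3))
  have hev : ∀ᶠ t in 𝓝 (0 : ℂ), H t = 0 := by
    have h3 : ∀ᶠ t in 𝓝 (0 : ℂ), ‖t • w‖ < r := by
      have h4 : Continuous fun t : ℂ => ‖t • w‖ := (continuous_id.smul continuous_const).norm
      have h5 := h4.tendsto 0
      rw [zero_smul, norm_zero] at h5
      exact h5.eventually_lt_const hr
    filter_upwards [h3] with t ht
    have h4 := hlin (t • w) ht
    have h5 : f (p + t • w) ≠ 0 := hrU (by simpa using ht)
    rw [hH]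
    simp only
    rw [hR] at h4
    simp only [map_smul, smul_eq_mul] at h4
    have h6 : g (p + t • w) = (κ + t * L w) * f (p + t • w) := by
      rw [← h4]
      field_simp
      ring
    rw [h6, sub_self]
  have hzero : H 1 = 0 := by
    have h3 : AnalyticOnNhd ℂ H Set.univ := fun t _ => hHd.analyticAt t
    have h4 := h3.eqOn_zero_of_preconnected_of_eventuallyEq_zero isPreconnected_univ
      (Set.mem_univ (0 : ℂ)) hev
    exact h4 (Set.mem_univ 1)
  rw [hH] at hzero
  simp only [one_smul, one_mul] at hzero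
  have h3 : p + w = z := by rw [hw]; abel
  rw [h3] at hzero
  exact sub_eq_zero.1 hzero

end

end Pool.Agent.Helper93.SH
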