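import Pool.Agent.Helper96.LU.Vr
import Pool.Agent.Helper44.SH.Pd
import Pool.Agent.Helper11.SH.S3

/-!
PROJECT ALLQ (MP_274814_nt), block E5, file a: entire functions with algebraic Taylor coefficients.
-/

set_option autoImplicit false

namespace Pool.Agent.Helper93.SH

open Finset Complex Filter Topology
open Pool.Agent.Helper13.LT (PS adg mem_adg cv)
open Pool.Agent.Helper96.LU (gb ps_gb ps_shift)

noncomputable section

variable {ι : Type} [Fintype ι]

theorem alg_sum {α : Type} (s : Finset α) (f : α → ℂ) (h : ∀ a ∈ s, IsAlgebraic ℚ (f a)) :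
    IsAlgebraic ℚ (∑ a ∈ s, f a) :=
  mem_algebraicClosure_iff.1 (sum_mem fun a ha => mem_algebraicClosure_iff.2 (h a ha))

theorem alg_prod {α : Type} (s : Finset α) (f : α → ℂ) (h : ∀ a ∈ s, IsAlgebraic ℚ (f a)) :
    IsAlgebraic ℚ (∏ a ∈ s, f a) :=
  mem_algebraicClosure_iff.1 (prod_mem fun a ha => mem_algebraicClosure_iff.2 (h a ha))

/-- entire functions with algebraic Taylor coefficients at `0` -/
def AE (f : (ι → ℂ) → ℂ) : Prop := ∃ a : (ι → ℕ) → ℂ, PS a f ∧ ∀ m, IsAlgebraic ℚ (a m)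

theorem AE.diff {f : (ι → ℂ) → ℂ} (h : AE f) : Differentiable ℂ f := by
  obtain ⟨a, h1, _⟩ := h
  exact h1.diff

theorem AE.congr {f g : (ι → ℂ) → ℂ} (h : AE f) (hg : ∀ z, g z = f z) : AE g := by
  rw [funext hg]
  exact h

theorem AE.add {f g : (ι → ℂ) → ℂ} (h : AE f) (h' : AE g) : AE (fun z => f z + g z) := by
  obtain ⟨a, h1, h2⟩ := h
  obtain ⟨b, h3, h4⟩ := h'
  exact ⟨_, h1.add h3, fun m => (h2 m).add (h4 m)⟩

theorem AE.sub {f g : (ι → ℂ) → ℂ} (h : AE f) (h' : AE g) : AE (fun z => f z - g z) := by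
  obtain ⟨a, h1, h2⟩ := h
  obtain ⟨b, h3, h4⟩ := h'
  exact ⟨_, h1.sub h3, fun m => (h2 m).sub (h4 m)⟩

theorem alg_cv {a b : (ι → ℕ) → ℂ} (ha : ∀ m, IsAlgebraic ℚ (a m))
    (hb : ∀ m, IsAlgebraic ℚ (b m)) (m : ι → ℕ) : IsAlgebraic ℚ (cv a b m) :=
  alg_sum _ _ fun p _ => (ha p.1).mul (hb p.2)

theorem AE.mul {f g : (ι → ℂ) → ℂ} (h : AE f) (h' : AE g) : AE (fun z => f z * g z) := by
  obtain ⟨a, h1, h2⟩ := h
  obtain ⟨b, h3, h4⟩ := h'
  exact ⟨_, h1.mul h3, alg_cv h2 h4⟩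

theorem AE.smul {f : (ι → ℂ) → ℂ} (h : AE f) {x : ℂ} (hx : IsAlgebraic ℚ x) :
    AE (fun z => x * f z) := by
  obtain ⟨a, h1, h2⟩ := h
  exact ⟨_, h1.smul x, fun m => hx.mul (h2 m)⟩

theorem AE.const {x : ℂ} (hx : IsAlgebraic ℚ x) : AE (fun _ : ι → ℂ => x) := by
  refine ⟨_, PS.const x, fun m => ?_⟩
  split_ifs
  · exact hx
  · exact isAlgebraic_zero

theorem AE.pow {f : (ι → ℂ) → ℂ} (h : AE f) (n : ℕ) : AE (fun z => f z ^ n) := by
  induction n with
  | zero => exact (AE.const isAlgebraic_one).congr fun z => by rw [pow_zero]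
  | succ n ih => exact (ih.mul h).congr fun z => by rw [pow_succ]

theorem AE.sum {α : Type} (s : Finset α) {f : α → (ι → ℂ) → ℂ} (h : ∀ a ∈ s, AE (f a)) :
    AE (fun z => ∑ a ∈ s, f a z) := by
  classical
  induction s using Finset.induction_on with
  | empty => exact (AE.const isAlgebraic_zero).congr fun z => by rw [sum_empty]
  | insert a s ha ih =>
    exact ((h a (mem_insert_self a s)).add (ih fun b hb => h b (mem_insert_of_mem hb))).congr
      fun z => by rw [sum_insert ha]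

theorem AE.prod {α : Type} (s : Finset α) {f : α → (ι → ℂ) → ℂ} (h : ∀ a ∈ s, AE (f a)) :
    AE (fun z => ∏ a ∈ s, f a z) := by
  classical
  induction s using Finset.induction_on with
  | empty => exact (AE.const isAlgebraic_one).congr fun z => by rw [prod_empty]
  | insert a s ha ih =>
    exact ((h a (mem_insert_self a s)).mul (ih fun b hb => h b (mem_insert_of_mem hb))).congr
      fun z => by rw [prod_insert ha]

theorem AE.scale {f : (ι → ℂ) → ℂ} (h : AE f) (n : ℕ) : AE (fun z => f ((n : ℂ) • z)) := by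
  obtain ⟨a, h1, h2⟩ := h
  refine ⟨_, h1.scale (fun _ => (n : ℂ)), fun m => (h2 m).mul (alg_prod _ _ fun u _ => ?_)⟩
  exact (isAlgebraic_natCast n).pow _

theorem AE_gb {φ : (ι → ℕ) → ℂ} {f : (ι → ℂ) → ℂ} (h : PS φ f) (ha : ∀ m, IsAlgebraic ℚ (φ m))
    (b : ι → ℕ) : AE (gb φ b) := by
  refine ⟨_, ps_gb h b, fun m => (ha _).mul (alg_prod _ _ fun u _ => ?_)⟩
  exact isAlgebraic_natCast _

/-- real hermitian form, antilinear in the first variable, nondegenerate -/
structure HB (B : (ι → ℂ) → (ι → ℂ) → ℂ) : Prop where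
  add_left : ∀ x y z, B (x + y) z = B x z + B y z
  smul_left : ∀ (c : ℂ) (x z : ι → ℂ), B (c • x) z = (starRingEnd ℂ) c * B x z
  add_right : ∀ x y z, B x (y + z) = B x y + B x z
  smul_right : ∀ (c : ℂ) (x z : ι → ℂ), B x (c • z) = c * B x z
  nd : ∀ v, (∀ x, B x v = 0) → v = 0
  real : ∀ x, (B x x).im = 0

/-- partial derivative -/
def pd [DecidableEq ι] (u : ι) (f : (ι → ℂ) → ℂ) (z : ι → ℂ) : ℂ := fderiv ℂ f z (Pi.single u 1)

theorem ps_pd [DecidableEq ι] {c : (ι → ℕ) → ℂ} {f : (ι → ℂ) → ℂ} (h : PS c f) (u : ι) :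
    PS (fun m => ((m u : ℂ) + 1) * c (m + Pi.single u 1)) (pd u f) := by
  obtain ⟨g, h1, h2⟩ := Pool.Agent.Helper44.SH.PS_deriv h u
  have h3 : pd u f = g := by
    funext z
    have h4 : HasDerivAt (fun t : ℂ => f (z + t • (Pi.single u 1 : ι → ℂ)))
        (fderiv ℂ f z (Pi.single u 1)) 0 := by
      have h5 : HasFDerivAt f (fderiv ℂ f z) z := (h.diff z).hasFDerivAt
      have h6 : HasDerivAt (fun t : ℂ => z + t • (Pi.single u 1 : ι → ℂ))
          (Pi.single u 1 : ι → ℂ) 0 := by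
        have h7 : HasDerivAt (fun t : ℂ => t • (Pi.single u 1 : ι → ℂ))
            ((1 : ℂ) • (Pi.single u 1 : ι → ℂ)) 0 :=
          (hasDerivAt_id (0 : ℂ)).smul_const (Pi.single u 1 : ι → ℂ)
        rw [one_smul] at h7
        exact h7.const_add z
      have h8 : HasFDerivAt f (fderiv ℂ f z) (z + (0 : ℂ) • (Pi.single u 1 : ι → ℂ)) := by
        rw [zero_smul, add_zero]
        exact h5
      exact h8.comp_hasDerivAt (0 : ℂ) h6
    exact h4.unique (h2 z)
  rw [h3]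
  exact h1

theorem AE.pd [DecidableEq ι] {f : (ι → ℂ) → ℂ} (h : AE f) (u : ι) : AE (pd u f) := by
  obtain ⟨a, h1, h2⟩ := h
  refine ⟨_, ps_pd h1 u, fun m => IsAlgebraic.mul ?_ (h2 _)⟩
  exact (isAlgebraic_natCast _).add isAlgebraic_one

/-- the derivative in direction `v` in terms of the partial derivatives -/
theorem fderiv_eq [DecidableEq ι] (f : (ι → ℂ) → ℂ) (z v : ι → ℂ) :
    fderiv ℂ f z v = ∑ u, v u * pd u f z := by
  have h1 : v = ∑ u, v u • (Pi.single u 1 : ι → ℂ) := by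
    funext w
    rw [Finset.sum_apply, Finset.sum_eq_single w]
    · simp
    · intro b _ hb
      simp [Pi.single_eq_of_ne (Ne.symm hb)]
    · intro h
      exact absurd (mem_univ w) h
  conv_lhs => rw [h1]
  rw [map_sum]
  refine sum_congr rfl fun u _ => ?_
  rw [map_smul, smul_eq_mul]
  rfl

end

end Pool.Agent.Helper93.SH
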