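import Pool.Agent.Helper93.SH.Va

/-!
PROJECT ALLQ (MP_274814_nt), block E5, file b: Siegel's argument with descent for entire functions whose
Taylor coefficients at `0` are algebraic.
-/

set_option autoImplicit false

namespace Pool.Agent.Helper93.SH

open Finset Complex Filter Topology
open Pool.Agent.Helper13.LT (PS adg mem_adg cv)

noncomputable section

variable {ι : Type} [Fintype ι]

theorem PS_zero : PS (fun _ : ι → ℕ => (0 : ℂ)) (fun _ => 0) := by
  intro z
  simp only [zero_mul]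
  exact hasSum_zero

theorem PS_sum {α : Type} (s : Finset α) {c : α → (ι → ℕ) → ℂ} {f : α → (ι → ℂ) → ℂ}
    (h : ∀ a ∈ s, PS (c a) (f a)) :
    PS (fun m => ∑ a ∈ s, c a m) (fun z => ∑ a ∈ s, f a z) := by
  classical
  induction s using Finset.induction_on with
  | empty =>
    simp only [sum_empty]
    exact PS_zero
  | insert a s ha ih =>
    simp only [sum_insert ha]
    exact (h a (mem_insert_self a s)).add (ih fun b hb => h b (mem_insert_of_mem hb))

/-- SIEGEL with descent: functions with algebraic Taylor coefficients at `0`. -/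
theorem siegel_taylor {κ : Type} [Fintype κ] (hcard : Fintype.card κ = Fintype.card ι + 1)
    {f0 : (ι → ℂ) → ℂ} {f : κ → (ι → ℂ) → ℂ} (hf0 : AE f0) (hf : ∀ k, AE (f k))
    {ρ : (ι → ℂ) → ℝ} (hρ : Continuous ρ) (hρ0 : ∀ x, 0 < ρ x) {D : Set (ι → ℂ)} (hD : IsCompact D)
    (hfd : ∀ x, ∃ y ∈ D, ∃ j : ℂ, f0 x = j * f0 y ∧ (∀ k, f k x = j * f k y) ∧
      ‖j‖ * ρ x ≤ ρ y) :
    ∃ p : MvPolynomial κ ℂ, p ≠ 0 ∧ (∀ m, IsAlgebraic ℚ (p.coeff m)) ∧
      ∀ x, f0 x ≠ 0 → MvPolynomial.eval (fun k => f k x / f0 x) p = 0 := by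
  classical
  obtain ⟨p, hp, h⟩ := Pool.Agent.Helper11.SH.siegel hcard isOpen_univ hf0.diff.differentiableOn
    (fun k => (hf k).diff.differentiableOn) hρ.continuousOn (fun x _ => hρ0 x) hD
    (Set.subset_univ _) (fun x _ => hfd x)
  obtain ⟨p', h1, h2, h3, h4⟩ := Pool.Agent.Helper11.SH.descent p hp
  refine ⟨p', h1, h2, fun x hx => ?_⟩
  set d : ℕ := p.totalDegree with hd
  set F : (κ →₀ ℕ) → (ι → ℂ) → ℂ := fun m x => f0 x ^ (d + 1 - ∑ k, m k) * ∏ k, f k x ^ m k with hF
  have hdeg : ∀ m ∈ p.support, ∑ k, m k ≤ d := by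
    intro m hm
    have h5 := MvPolynomial.le_totalDegree hm
    rw [Finsupp.sum_fintype _ _ (fun _ => rfl)] at h5
    exact h5
  have key : ∀ (r : MvPolynomial κ ℂ), r.support ⊆ p.support → ∀ x, f0 x ≠ 0 →
      ∑ m ∈ p.support, r.coeff m * F m x =
        f0 x ^ (d + 1) * MvPolynomial.eval (fun k => f k x / f0 x) r := by
    intro r hr x hx
    rw [MvPolynomial.eval_eq', mul_sum]
    rw [← Finset.sum_subset hr fun m _ hm => by
      rw [MvPolynomial.notMem_support_iff.1 hm, zero_mul]]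
    refine sum_congr rfl fun m hm => ?_
    have h5 := hdeg m (hr hm)
    rw [hF]
    simp only [div_pow]
    rw [prod_div_distrib, prod_pow_eq_pow_sum]
    have h6 : f0 x ^ (d + 1) = f0 x ^ (d + 1 - ∑ k, m k) * f0 x ^ (∑ k, m k) := by
      rw [← pow_add]
      congr 1
      omega
    rw [h6]
    have h7 : f0 x ^ (∑ k, m k) ≠ 0 := pow_ne_zero _ hx
    field_simp
  have hFae : ∀ m, AE (F m) := by
    intro m
    exact (hf0.pow _).mul (AE.prod _ fun k _ => (hf k).pow _)
  choose b hb1 hb2 using hFae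
  have h5 : ∀ x, ∑ m ∈ p.support, p.coeff m * F m x = 0 := by
    intro x
    by_cases hx : f0 x = 0
    · refine sum_eq_zero fun m hm => ?_
      have h6 := hdeg m hm
      rw [hF]
      simp only
      rw [hx, zero_pow (by omega), zero_mul, mul_zero]
    · rw [key p (Finset.Subset.refl _) x hx, h x (Set.mem_univ x) hx, mul_zero]
  have h6 : (fun a => ∑ m ∈ p.support, p.coeff m * b m a) = fun _ => (0 : ℂ) := by
    have h7 : PS (fun a => ∑ m ∈ p.support, p.coeff m * b m a)
        (fun z => ∑ m ∈ p.support, p.coeff m * F m z) :=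
      PS_sum _ fun m _ => (hb1 m).smul (p.coeff m)
    have h8 : (fun z => ∑ m ∈ p.support, p.coeff m * F m z) = fun _ => (0 : ℂ) := funext h5
    rw [h8] at h7
    exact h7.unique PS_zero
  have h7 : ∀ a, ∑ m ∈ p.support, p'.coeff m * b m a = 0 := fun a =>
    h4 (fun m => b m a) (fun m => hb2 m a) (congrFun h6 a)
  have h8 : ∑ m ∈ p.support, p'.coeff m * F m x = 0 := by
    have h9 : PS (fun a => ∑ m ∈ p.support, p'.coeff m * b m a)
        (fun z => ∑ m ∈ p.support, p'.coeff m * F m z) :=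
      PS_sum _ fun m _ => (hb1 m).smul (p'.coeff m)
    rw [funext h7] at h9
    exact (h9 x).unique (PS_zero x)
  rw [key p' h3 x hx] at h8
  exact (mul_eq_zero.1 h8).resolve_left (pow_ne_zero _ hx)

end

end Pool.Agent.Helper93.SH
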