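import Pool.Agent.Helper93.SH.Vb

/-!
PROJECT ALLQ (MP_274814_nt), block E5, file c: the Taylor coefficients in `w` of
`f (z + 2 w) f (z - w) ^ 2`, and their derivatives in `z`.
-/

set_option autoImplicit false

namespace Pool.Agent.Helper93.SH

open Finset Complex Filter Topology
open Pool.Agent.Helper13.LT (PS adg mem_adg cv)
open Pool.Agent.Helper96.LU (gb ps_gb ps_shift)

noncomputable section

variable {ι : Type} [Fintype ι]

/-- trilinear convolution of rescaled series -/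
def tri (A B C : (ι → ℕ) → ℂ) : (ι → ℕ) → ℂ :=
  cv (cv (fun b => A b * ∏ u, (2 : ℂ) ^ b u) (fun b => B b * ∏ u, (-1 : ℂ) ^ b u))
    (fun b => C b * ∏ u, (-1 : ℂ) ^ b u)

/-- coefficient of `w ^ m` in `f (z + 2 w) f (z - w) ^ 2` -/
def D3 (φ : (ι → ℕ) → ℂ) (m : ι → ℕ) (z : ι → ℂ) : ℂ :=
  tri (fun b => gb φ b z) (fun b => gb φ b z) (fun b => gb φ b z) m

theorem ps_tri {A B C : (ι → ℕ) → ℂ} {f g h : (ι → ℂ) → ℂ} {z : ι → ℂ}
    (hA : PS A fun t => f (z + t)) (hB : PS B fun t => g (z + t)) (hC : PS C fun t => h (z + t)) :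
    PS (tri A B C) (fun w => f (z + (2 : ℂ) • w) * g (z - w) * h (z - w)) := by
  have h1 := hA.scale (fun _ => (2 : ℂ))
  have h2 := hB.scale (fun _ => (-1 : ℂ))
  have h3 := hC.scale (fun _ => (-1 : ℂ))
  have h4 := (h1.mul h2).mul h3
  have e1 : ∀ w : ι → ℂ, (fun u => (2 : ℂ) * w u) = (2 : ℂ) • w := fun w => rfl
  have e2 : ∀ w : ι → ℂ, (z + fun u => (-1 : ℂ) * w u) = z - w := by
    intro w
    funext u
    simp [sub_eq_add_neg]
  simp only [e1, e2] at h4
  exact h4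

theorem ps_D3 {φ : (ι → ℕ) → ℂ} {f : (ι → ℂ) → ℂ} (h : PS φ f) (z : ι → ℂ) :
    PS (fun m => D3 φ m z) (fun w => f (z + (2 : ℂ) • w) * f (z - w) * f (z - w)) :=
  ps_tri (ps_shift h z) (ps_shift h z) (ps_shift h z)

theorem AE_D3 {φ : (ι → ℕ) → ℂ} {f : (ι → ℂ) → ℂ} (h : PS φ f) (ha : ∀ m, IsAlgebraic ℚ (φ m))
    (m : ι → ℕ) : AE (D3 φ m) := by
  have h2 : ∀ b, AE (fun z => gb φ b z * ∏ u, (2 : ℂ) ^ b u) := by
    intro b
    refine (AE_gb h ha b).mul (AE.const (alg_prod _ _ fun u _ => ?_))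
    have h5 : IsAlgebraic ℚ ((2 : ℕ) : ℂ) := isAlgebraic_natCast 2
    exact (by exact_mod_cast h5 : IsAlgebraic ℚ (2 : ℂ)).pow _
  have h3 : ∀ b, AE (fun z => gb φ b z * ∏ u, (-1 : ℂ) ^ b u) := by
    intro b
    refine (AE_gb h ha b).mul (AE.const (alg_prod _ _ fun u _ => ?_))
    exact isAlgebraic_one.neg.pow _
  exact AE.sum _ fun p _ => (AE.sum _ fun r _ => (h2 r.1).mul (h3 r.2)).mul (h3 p.2)

/-! ### derivative in `z` -/

/-- coefficients of the derivative in the direction `v` -/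
def dv [DecidableEq ι] (v : ι → ℂ) (φ : (ι → ℕ) → ℂ) (m : ι → ℕ) : ℂ :=
  ∑ u, v u * (((m u : ℂ) + 1) * φ (m + Pi.single u 1))

theorem ps_dv [DecidableEq ι] {φ : (ι → ℕ) → ℂ} {f : (ι → ℂ) → ℂ} (h : PS φ f) (v : ι → ℂ) :
    PS (dv v φ) (fun z => fderiv ℂ f z v) := by
  have h1 : PS (fun m => ∑ u, v u * (((m u : ℂ) + 1) * φ (m + Pi.single u 1)))
      (fun z => ∑ u, v u * pd u f z) := PS_sum _ fun u _ => (ps_pd h u).smul (v u)
  have h2 : (fun z => fderiv ℂ f z v) = fun z => ∑ u, v u * pd u f z :=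
    funext fun z => fderiv_eq f z v
  rw [h2]
  exact h1

theorem gb_fderiv [DecidableEq ι] {φ : (ι → ℕ) → ℂ} {f : (ι → ℂ) → ℂ} (h : PS φ f) (v : ι → ℂ)
    (b : ι → ℕ) (z : ι → ℂ) : fderiv ℂ (gb φ b) z v = gb (dv v φ) b z := by
  have h1 := ps_dv (ps_gb h b) v
  have h2 := ps_gb (ps_dv h v) b
  have h3 : dv v (fun a => φ (a + b) * ∏ u, ((a u + b u).choose (b u) : ℂ)) =
      fun a => dv v φ (a + b) * ∏ u, ((a u + b u).choose (b u) : ℂ) := by
    funext a
    unfold dv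
    rw [sum_mul]
    refine sum_congr rfl fun u _ => ?_
    have h4 : a + Pi.single u 1 + b = a + b + Pi.single u 1 := by
      rw [add_right_comm]
    beta_reduce
    rw [h4]
    have h5 : ((a u : ℂ) + 1) * ∏ w, (((a + Pi.single u 1 : ι → ℕ) w + b w).choose (b w) : ℂ) =
        (((a + b) u : ℂ) + 1) * ∏ w, ((a w + b w).choose (b w) : ℂ) := by
      rw [← Finset.mul_prod_erase univ _ (mem_univ u),
        ← Finset.mul_prod_erase univ (fun w => ((a w + b w).choose (b w) : ℂ)) (mem_univ u)]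
      have h6 : ∏ w ∈ univ.erase u, (((a + Pi.single u 1 : ι → ℕ) w + b w).choose (b w) : ℂ) =
          ∏ w ∈ univ.erase u, ((a w + b w).choose (b w) : ℂ) := by
        refine prod_congr rfl fun w hw => ?_
        rw [Pi.add_apply, Pi.single_eq_of_ne (ne_of_mem_erase hw), add_zero]
      rw [h6, ← mul_assoc, ← mul_assoc]
      congr 1
      have h7 := Nat.choose_mul_succ_eq (a u + b u) (b u)
      have h8 : a u + b u + 1 - b u = a u + 1 := by omega
      rw [h8] at h7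
      have h9 : (a + Pi.single u 1 : ι → ℕ) u + b u = a u + b u + 1 := by
        rw [Pi.add_apply, Pi.single_eq_same]
        omega
      rw [h9, Pi.add_apply]
      have h10 : (((a u + b u).choose (b u) : ℕ) : ℂ) * ((a u + b u + 1 : ℕ) : ℂ) =
          (((a u + b u + 1).choose (b u) : ℕ) : ℂ) * ((a u + 1 : ℕ) : ℂ) := by
        exact_mod_cast h7
      push_cast at h10 ⊢
      linear_combination -h10
    linear_combination (v u * φ (a + b + Pi.single u 1)) * h5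
  rw [h3] at h1
  exact (h1 z).unique (h2 z)

theorem cv_deriv {A B : ℂ → (ι → ℕ) → ℂ} {A' B' : (ι → ℕ) → ℂ}
    (hA : ∀ b, HasDerivAt (fun t => A t b) (A' b) 0)
    (hB : ∀ b, HasDerivAt (fun t => B t b) (B' b) 0) (m : ι → ℕ) :
    HasDerivAt (fun t => cv (A t) (B t) m) (cv A' (B 0) m + cv (A 0) B' m) 0 := by
  unfold cv
  rw [← sum_add_distrib]
  exact HasDerivAt.fun_sum fun p _ => (hA p.1).mul (hB p.2)

theorem tri_deriv {A : ℂ → (ι → ℕ) → ℂ} {A' : (ι → ℕ) → ℂ}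
    (hA : ∀ b, HasDerivAt (fun t => A t b) (A' b) 0) (m : ι → ℕ) :
    HasDerivAt (fun t => tri (A t) (A t) (A t) m)
      (tri A' (A 0) (A 0) m + tri (A 0) A' (A 0) m + tri (A 0) (A 0) A' m) 0 := by
  have h1 := cv_deriv (ι := ι) (fun b => (hA b).mul_const (∏ u, (2 : ℂ) ^ b u))
    (fun b => (hA b).mul_const (∏ u, (-1 : ℂ) ^ b u))
  have h2 := cv_deriv (ι := ι) h1 (fun b => (hA b).mul_const (∏ u, (-1 : ℂ) ^ b u)) m
  unfold tri
  convert h2 using 1
  simp only [cv, add_mul, sum_add_distrib]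

/-- the derivative of the line `t ↦ z + t v` -/
theorem hasDerivAt_line {f : (ι → ℂ) → ℂ} (hf : Differentiable ℂ f) (z v : ι → ℂ) :
    HasDerivAt (fun t : ℂ => f (z + t • v)) (fderiv ℂ f z v) 0 := by
  have h5 : HasFDerivAt f (fderiv ℂ f z) z := (hf z).hasFDerivAt
  have h6 : HasDerivAt (fun t : ℂ => z + t • v) v 0 := by
    have h7 : HasDerivAt (fun t : ℂ => t • v) ((1 : ℂ) • v) 0 :=
      (hasDerivAt_id (0 : ℂ)).smul_const v
    rw [one_smul] at h7
    exact h7.const_add z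
  have h8 : HasFDerivAt f (fderiv ℂ f z) (z + (0 : ℂ) • v) := by
    rw [zero_smul, add_zero]
    exact h5
  exact h8.comp_hasDerivAt (0 : ℂ) h6

/-- derivative of `D3` -/
theorem D3_deriv [DecidableEq ι] {φ : (ι → ℕ) → ℂ} {f : (ι → ℂ) → ℂ} (h : PS φ f) (v z : ι → ℂ)
    (m : ι → ℕ) :
    HasDerivAt (fun t : ℂ => D3 φ m (z + t • v))
      (tri (fun b => gb (dv v φ) b z) (fun b => gb φ b z) (fun b => gb φ b z) m +
        tri (fun b => gb φ b z) (fun b => gb (dv v φ) b z) (fun b => gb φ b z) m +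
        tri (fun b => gb φ b z) (fun b => gb φ b z) (fun b => gb (dv v φ) b z) m) 0 := by
  have h1 : ∀ b, HasDerivAt (fun t : ℂ => gb φ b (z + t • v)) (gb (dv v φ) b z) 0 := by
    intro b
    rw [← gb_fderiv h v b z]
    exact hasDerivAt_line (ps_gb h b).diff z v
  have h2 := tri_deriv (A := fun t b => gb φ b (z + t • v)) h1 m
  simp only [zero_smul, add_zero] at h2
  exact h2

end

end Pool.Agent.Helper93.SH
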