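import Pool.Agent.Helper93.SH.Vd

/-!
PROJECT ALLQ (MP_274814_nt), block E5, file e: hermitian forms and quasi-periodic functions.
-/

set_option autoImplicit false

namespace Pool.Agent.Helper93.SH

open Finset Complex Filter Topology
open Pool.Agent.Helper13.LT (PS adg mem_adg cv)
open Pool.Agent.Helper96.LU (gb ps_gb ps_shift)

noncomputable section

variable {ι : Type} [Fintype ι]

omit [Fintype ι] in
theorem HB.symm {B : (ι → ℂ) → (ι → ℂ) → ℂ} (h : HB B) (x y : ι → ℂ) :
    B y x = (starRingEnd ℂ) (B x y) := by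
  have h1 := h.real (x + y)
  rw [h.add_left, h.add_right, h.add_right, add_im, add_im, add_im, h.real x, h.real y] at h1
  have h2 := h.real (x + I • y)
  rw [h.add_left, h.add_right, h.add_right, h.smul_right, h.smul_right, h.smul_left,
    h.smul_left, add_im, add_im, add_im, h.real x] at h2
  simp only [mul_im, mul_re, I_re, I_im, conj_I, neg_re, neg_im] at h2
  have h3 := h.real y
  refine Complex.ext ?_ ?_
  · rw [conj_re]
    rw [h3] at h2
    linarith
  · rw [conj_im]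
    linarith

/-- the factor of automorphy -/
def ea (B : (ι → ℂ) → (ι → ℂ) → ℂ) (l z : ι → ℂ) : ℂ := exp (2 * B l z + B l l)

omit [Fintype ι] in
theorem ea_ne (B : (ι → ℂ) → (ι → ℂ) → ℂ) (l z : ι → ℂ) : ea B l z ≠ 0 := exp_ne_zero _

theorem HB.add_add {B : (ι → ℂ) → (ι → ℂ) → ℂ} (h : HB B) (z l : ι → ℂ) :
    (B (z + l) (z + l)).re = (B z z).re + (2 * B l z + B l l).re := by
  rw [h.add_left, h.add_right, h.add_right, h.symm l z]
  simp only [add_re, mul_re, conj_re, re_ofNat, im_ofNat]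
  ring

theorem HB.norm_ea {B : (ι → ℂ) → (ι → ℂ) → ℂ} (h : HB B) (l z : ι → ℂ) :
    ‖ea B l z‖ = Real.exp ((B (z + l) (z + l)).re - (B z z).re) := by
  rw [ea, norm_exp, h.add_add]
  congr 1
  ring

omit [Fintype ι] in
theorem HB.zero_right {B : (ι → ℂ) → (ι → ℂ) → ℂ} (h : HB B) (x : ι → ℂ) : B x 0 = 0 := by
  have h1 := h.smul_right 0 x 0
  rwa [zero_smul, zero_mul] at h1

omit [Fintype ι] in
theorem HB.zero_left {B : (ι → ℂ) → (ι → ℂ) → ℂ} (h : HB B) (z : ι → ℂ) : B 0 z = 0 := by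
  have h1 := h.smul_left 0 0 z
  rwa [zero_smul, map_zero, zero_mul] at h1

/-- `B x` as a linear map -/
def HB.lin {B : (ι → ℂ) → (ι → ℂ) → ℂ} (h : HB B) (x : ι → ℂ) : (ι → ℂ) →ₗ[ℂ] ℂ where
  toFun z := B x z
  map_add' y z := h.add_right x y z
  map_smul' c z := h.smul_right c x z

/-- `x ↦ B x v` as a real linear map -/
def HB.rlin {B : (ι → ℂ) → (ι → ℂ) → ℂ} (h : HB B) (v : ι → ℂ) : (ι → ℂ) →ₗ[ℝ] ℂ where
  toFun x := B x v
  map_add' x y := h.add_left x y v
  map_smul' c x := by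
    have h1 := h.smul_left (c : ℂ) x v
    rw [conj_ofReal] at h1
    rw [RingHom.id_apply, real_smul, ← h1]
    rfl

theorem expand [DecidableEq ι] (z : ι → ℂ) : z = ∑ u, z u • (Pi.single u 1 : ι → ℂ) := by
  funext w
  rw [Finset.sum_apply, Finset.sum_eq_single w]
  · simp
  · intro b _ hb
    simp [Pi.single_eq_of_ne (Ne.symm hb)]
  · intro h
    exact absurd (mem_univ w) h

theorem HB.cont_diag {B : (ι → ℂ) → (ι → ℂ) → ℂ} (h : HB B) : Continuous fun z => (B z z).re := by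
  classical
  have h1 : ∀ z, B z z = ∑ u, z u * B z (Pi.single u 1) := by
    intro z
    have h2 : h.lin z z = ∑ u, z u • h.lin z (Pi.single u 1) := by
      conv_lhs => rw [expand z]
      rw [map_sum, ← expand z]
      exact sum_congr rfl fun u _ => by rw [map_smul]
    exact h2
  have h2 : ∀ u : ι, Continuous fun z => B z (Pi.single u 1) := fun u =>
    (h.rlin (Pi.single u 1)).continuous_of_finiteDimensional
  refine Complex.continuous_re.comp ?_
  simp only [h1]
  exact continuous_finsetSum _ fun u _ => (continuous_apply u).mul (h2 u)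

/-- a real linear map which vanishes on a cocompact subgroup is zero -/
theorem cocompact_zero {Λ : AddSubgroup (ι → ℂ)} (hco : ∃ R : ℝ, ∀ z, ∃ l ∈ Λ, ‖z - l‖ ≤ R)
    (T : (ι → ℂ) →ₗ[ℝ] ℂ) (hT : ∀ l ∈ Λ, T l = 0) (x : ι → ℂ) : T x = 0 := by
  obtain ⟨R, hR⟩ := hco
  set Tc : (ι → ℂ) →L[ℝ] ℂ := LinearMap.toContinuousLinearMap T with hTc
  have h1 : ∀ N : ℕ, (N : ℝ) * ‖T x‖ ≤ ‖Tc‖ * R := by
    intro N
    obtain ⟨l, hl, hl2⟩ := hR ((N : ℝ) • x)
    have h2 : T ((N : ℝ) • x - l) = (N : ℝ) • T x := by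
      rw [map_sub, hT l hl, sub_zero, map_smul]
    have h3 : ‖Tc ((N : ℝ) • x - l)‖ ≤ ‖Tc‖ * ‖(N : ℝ) • x - l‖ := Tc.le_opNorm _
    have h4 : Tc ((N : ℝ) • x - l) = (N : ℝ) • T x := h2
    rw [h4, norm_smul, Real.norm_of_nonneg (Nat.cast_nonneg N)] at h3
    exact h3.trans (mul_le_mul_of_nonneg_left hl2 (norm_nonneg _))
  by_contra hne
  have h2 : 0 < ‖T x‖ := norm_pos_iff.2 hne
  obtain ⟨N, hN⟩ := exists_nat_gt (‖Tc‖ * R / ‖T x‖)
  have h3 := h1 N
  rw [div_lt_iff₀ h2] at hN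
  linarith

variable {B : (ι → ℂ) → (ι → ℂ) → ℂ} {f : (ι → ℂ) → ℂ} {Λ : AddSubgroup (ι → ℂ)}

/-- quasi-periodicity of the derivative -/
theorem qp_deriv (hB : HB B) (hf : Differentiable ℂ f)
    (hqp : ∀ l ∈ Λ, ∀ z, f (z + l) = ea B l z * f z) {l : ι → ℂ} (hl : l ∈ Λ) (z v : ι → ℂ) :
    fderiv ℂ f (z + l) v = ea B l z * (2 * B l v * f z + fderiv ℂ f z v) := by
  have h1 := hasDerivAt_line hf (z + l) v
  have h2 : (fun t : ℂ => f (z + l + t • v)) = fun t => ea B l (z + t • v) * f (z + t • v) := by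
    funext t
    rw [← hqp l hl]
    congr 1
    abel
  have h3 : HasDerivAt (fun t : ℂ => ea B l (z + t • v)) (ea B l z * (2 * B l v)) 0 := by
    have h4 : (fun t : ℂ => ea B l (z + t • v)) =
        fun t => exp (2 * B l z + B l l + t * (2 * B l v)) := by
      funext t
      rw [ea, hB.add_right, hB.smul_right]
      congr 1
      ring
    rw [h4]
    have h5 : HasDerivAt (fun t : ℂ => 2 * B l z + B l l + t * (2 * B l v)) (2 * B l v) 0 := by
      have h6 := ((hasDerivAt_id (0 : ℂ)).mul_const (2 * B l v)).const_add (2 * B l z + B l l)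
      rw [one_mul] at h6
      exact h6
    have h6 := h5.cexp
    rw [zero_mul, add_zero] at h6
    exact h6
  have h4 := h3.mul (hasDerivAt_line hf z v)
  rw [zero_smul, add_zero] at h4
  rw [h2] at h1
  have h5 := h1.unique h4
  rw [h5]
  ring

theorem D3_qp (hB : HB B) {φ : (ι → ℕ) → ℂ} (h : PS φ f)
    (hqp : ∀ l ∈ Λ, ∀ z, f (z + l) = ea B l z * f z) {l : ι → ℂ} (hl : l ∈ Λ) (z : ι → ℂ)
    (m : ι → ℕ) : D3 φ m (z + l) = ea B l z ^ 3 * D3 φ m z := by
  have h1 := ps_D3 h (z + l)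
  have h2 := (ps_D3 h z).smul (ea B l z ^ 3)
  have h3 : (fun w : ι → ℂ => f (z + l + (2 : ℂ) • w) * f (z + l - w) * f (z + l - w)) =
      fun w => ea B l z ^ 3 * (f (z + (2 : ℂ) • w) * f (z - w) * f (z - w)) := by
    funext w
    have e1 : z + l + (2 : ℂ) • w = z + (2 : ℂ) • w + l := by abel
    have e2 : z + l - w = z - w + l := by abel
    rw [e1, e2, hqp l hl, hqp l hl]
    have e3 : ea B l (z + (2 : ℂ) • w) * ea B l (z - w) * ea B l (z - w) = ea B l z ^ 3 := by
      have e4 : z - w = z + (-1 : ℂ) • w := by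
        rw [neg_smul, one_smul, sub_eq_add_neg]
      rw [e4]
      simp only [ea]
      rw [← exp_add, ← exp_add, ← exp_nat_mul, hB.add_right, hB.add_right, hB.smul_right,
        hB.smul_right]
      congr 1
      push_cast
      ring
    rw [← e3]
    ring
  rw [h3] at h1
  exact congrFun (h1.unique h2) m

/-- the differentials of the functions `D3 φ m / f ^ 3` at `p` have no common zero -/
theorem nondeg [DecidableEq ι] (hB : HB B) {φ : (ι → ℕ) → ℂ} (h : PS φ f)
    (hqp : ∀ l ∈ Λ, ∀ z, f (z + l) = ea B l z * f z)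
    (hco : ∃ R : ℝ, ∀ z, ∃ l ∈ Λ, ‖z - l‖ ≤ R) {p v : ι → ℂ} (hp : f p ≠ 0)
    (hD : ∀ m, HasDerivAt (fun t : ℂ => D3 φ m (p + t • v) / f (p + t • v) ^ 3) 0 0) : v = 0 := by
  obtain ⟨L, hL⟩ := nondeg_affine h hp hD
  have h1 : ∀ l ∈ Λ, L l = 2 * B l v := by
    intro l hl
    have h2 := qp_deriv hB h.diff hqp hl p v
    have h3 := hL (p + l)
    rw [h2, hqp l hl, add_sub_cancel_left] at h3
    have h4 : fderiv ℂ f p v = fderiv ℂ f p v / f p * f p := by field_simp
    have h5 : ea B l p * f p * (L l - 2 * B l v) = 0 := by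
      linear_combination -h3 + ea B l p * h4
    rcases mul_eq_zero.1 h5 with h6 | h6
    · exact absurd h6 (mul_ne_zero (ea_ne B l p) hp)
    · linear_combination h6
  have h2 : ∀ x, L x = 2 * B x v := by
    intro x
    have h3 := cocompact_zero hco
      ((L : (ι → ℂ) →ₗ[ℂ] ℂ).restrictScalars ℝ - (2 : ℝ) • hB.rlin v) (fun l hl => by
        rw [LinearMap.sub_apply, LinearMap.smul_apply]
        have h4 := h1 l hl
        change L l - (2 : ℝ) • B l v = 0
        rw [h4, real_smul]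
        push_cast
        ring) x
    rw [LinearMap.sub_apply, LinearMap.smul_apply] at h3
    change L x - (2 : ℝ) • B x v = 0 at h3
    rw [real_smul] at h3
    push_cast at h3
    linear_combination h3
  refine hB.nd v fun x => ?_
  have h3 := h2 (I • x)
  rw [map_smul, h2 x, hB.smul_left, conj_I, smul_eq_mul] at h3
  have h4 : I * B x v = 0 := by linear_combination h3 / 4
  exact (mul_eq_zero.1 h4).resolve_left I_ne_zero

end

end Pool.Agent.Helper93.SH
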