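import Pool.Agent.Helper93.SH.Ve

/-!
PROJECT ALLQ (MP_274814_nt), block E5, file f: algebraicity of the values of periodic functions at
torsion points.
-/

set_option autoImplicit false

namespace Pool.Agent.Helper93.SH

open Finset Complex Filter Topology
open Pool.Agent.Helper13.LT (PS adg mem_adg cv)
open Pool.Agent.Helper96.LU (gb ps_gb ps_shift)

noncomputable section

variable {ι : Type} [Fintype ι]

/-- finitely many functionals without common zero -/
theorem choose_coords {M : Type} (L : M → ((ι → ℂ) →ₗ[ℂ] ℂ))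
    (h : ∀ v, (∀ m, L m v = 0) → v = 0) : ∃ m : ι → M, ∀ v, (∀ i, L (m i) v = 0) → v = 0 := by
  classical
  rcases isEmpty_or_nonempty ι with hι | ⟨⟨i0⟩⟩
  · exact ⟨fun i => (hι.false i).elim, fun v _ => Subsingleton.elim _ _⟩
  obtain ⟨κ, a, -, ha2, ha3⟩ := exists_linearIndependent' ℂ L
  have hM : Nonempty M := by
    by_contra hM
    have h1 := h (Pi.single i0 1) fun m => (hM ⟨m⟩).elim
    have h2 := congrFun h1 i0
    rw [Pi.single_eq_same] at h2
    exact one_ne_zero h2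
  have : Finite κ := ha3.finite
  have : Fintype κ := Fintype.ofFinite κ
  have hcard : Fintype.card κ ≤ Fintype.card ι := by
    have h1 := ha3.fintype_card_le_finrank
    have h2 : Module.finrank ℂ ((ι → ℂ) →ₗ[ℂ] ℂ) = Fintype.card ι := by
      have h3 := Subspace.dual_finrank_eq (K := ℂ) (V := ι → ℂ)
      rw [Module.finrank_fintype_fun_eq_card] at h3
      exact h3
    rwa [h2] at h1
  obtain ⟨e⟩ := Function.Embedding.nonempty_of_card_le hcard
  refine ⟨fun i => if h' : ∃ k, e k = i then a h'.choose else hM.some, fun v hv => ?_⟩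
  have h1 : ∀ k, L (a k) v = 0 := by
    intro k
    have h2 := hv (e k)
    have h3 : ∃ k', e k' = e k := ⟨k, rfl⟩
    beta_reduce at h2
    rw [dif_pos h3] at h2
    have h4 : h3.choose = k := e.injective h3.choose_spec
    rwa [h4] at h2
  refine h v fun m => ?_
  have h2 : L m ∈ Submodule.span ℂ (Set.range (L ∘ a)) := by
    rw [ha2]
    exact Submodule.subset_span ⟨m, rfl⟩
  refine Submodule.span_induction (p := fun x _ => x v = 0) ?_ ?_ ?_ ?_ h2
  · rintro _ ⟨k, rfl⟩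
    exact h1 k
  · rfl
  · intro x y _ _ hx hy
    rw [LinearMap.add_apply, hx, hy, add_zero]
  · intro c x _ hx
    rw [LinearMap.smul_apply, hx, smul_zero]

theorem AE_contDiff {f : (ι → ℂ) → ℂ} (h : AE f) : ContDiff ℂ 1 f := by
  classical
  rw [contDiff_one_iff_fderiv]
  refine ⟨h.diff, ?_⟩
  have h1 : fderiv ℂ f = fun z => ∑ u, pd u f z • (ContinuousLinearMap.proj u : (ι → ℂ) →L[ℂ] ℂ) := by
    funext z
    ext v
    rw [fderiv_eq, _root_.sum_apply]
    refine sum_congr rfl fun u _ => ?_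
    rw [_root_.smul_apply, ContinuousLinearMap.proj_apply, smul_eq_mul, mul_comm]
  rw [h1]
  exact continuous_finsetSum _ fun u _ => (h.pd u).diff.continuous.smul continuous_const

variable {B : (ι → ℂ) → (ι → ℂ) → ℂ} {f : (ι → ℂ) → ℂ} {Λ : AddSubgroup (ι → ℂ)}

omit [Fintype ι] in
theorem ea_smul (hB : HB B) (n : ℕ) (l z : ι → ℂ) :
    ea B ((n : ℂ) • l) ((n : ℂ) • z) = ea B l z ^ (n ^ 2) := by
  unfold ea
  rw [← exp_nat_mul, hB.smul_left, hB.smul_right, hB.smul_left, hB.smul_right, conj_natCast]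
  congr 1
  push_cast
  ring

omit [Fintype ι] in
theorem nsmul_mem' {n : ℕ} {l : ι → ℂ} (hl : l ∈ Λ) : (n : ℂ) • l ∈ Λ := by
  have h1 := Λ.nsmul_mem hl n
  rwa [← Nat.cast_smul_eq_nsmul ℂ n l] at h1

omit [Fintype ι] in
theorem qp_n (hB : HB B) (hqp : ∀ l ∈ Λ, ∀ z, f (z + l) = ea B l z * f z) (n : ℕ) {l : ι → ℂ}
    (hl : l ∈ Λ) (z : ι → ℂ) : f ((n : ℂ) • (z + l)) = ea B l z ^ (n ^ 2) * f ((n : ℂ) • z) := by
  rw [smul_add, hqp _ (nsmul_mem' hl), ea_smul hB]

theorem eval_core [DecidableEq ι] (hB : HB B) (hf : AE f)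
    (hqp : ∀ l ∈ Λ, ∀ z, f (z + l) = ea B l z * f z)
    (hco : ∃ R : ℝ, ∀ z, ∃ l ∈ Λ, ‖z - l‖ ≤ R) {n : ℕ} (hn : 2 ≤ n) {p : ι → ℂ}
    (hp : ((n : ℂ) - 1) • p ∈ Λ) (hne : f p ≠ 0) {N : ℕ} (hN : 3 ≤ N) {Nf : (ι → ℂ) → ℂ}
    (hφ : AE Nf) (hφq : ∀ l ∈ Λ, ∀ z, Nf (z + l) = ea B l z ^ (N + 3 * n ^ 2) * Nf z) :
    IsAlgebraic ℚ (Nf p / (f p ^ N * f ((n : ℂ) • p) ^ 3)) := by
  obtain ⟨φ, h, ha⟩ := id hf
  have hfc := AE_contDiff hf
  set y : (ι → ℕ) → (ι → ℂ) → ℂ := fun m z => D3 φ m z / f z ^ 3 with hy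
  have hnp : (n : ℂ) • p = p + ((n : ℂ) - 1) • p := by
    rw [sub_smul, one_smul]
    abel
  have hfn : f ((n : ℂ) • p) ≠ 0 := by
    rw [hnp, hqp _ hp]
    exact mul_ne_zero (ea_ne _ _ _) hne
  have hyc : ∀ m z, f z ≠ 0 → ContDiffAt ℂ 1 (y m) z := by
    intro m z hz
    exact (AE_contDiff (AE_D3 h ha m)).contDiffAt.div (hfc.contDiffAt.pow 3) (pow_ne_zero 3 hz)
  have hyp : ∀ m l, l ∈ Λ → ∀ z, y m (z + l) = y m z := by
    intro m l hl z
    rw [hy]
    simp only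
    rw [D3_qp hB h hqp hl, hqp l hl, mul_pow]
    exact mul_div_mul_left _ _ (pow_ne_zero 3 (ea_ne _ _ _))
  set L : (ι → ℕ) → ((ι → ℂ) →L[ℂ] ℂ) := fun m => fderiv ℂ (y m) p with hL
  obtain ⟨m, hm⟩ := choose_coords (fun m => ((L m : (ι → ℂ) →L[ℂ] ℂ) : (ι → ℂ) →ₗ[ℂ] ℂ)) (by
    intro v hv
    refine nondeg hB h hqp hco hne fun m => ?_
    have h1 : HasFDerivAt (y m) (L m) (p + (0 : ℂ) • v) := by
      rw [zero_smul, add_zero]
      exact ((hyc m p hne).differentiableAt one_ne_zero).hasFDerivAt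
    have h2 : HasDerivAt (fun t : ℂ => p + t • v) v 0 := by
      have h7 : HasDerivAt (fun t : ℂ => t • v) ((1 : ℂ) • v) 0 :=
        (hasDerivAt_id (0 : ℂ)).smul_const v
      rw [one_smul] at h7
      exact h7.const_add p
    have h3 := h1.comp_hasDerivAt (0 : ℂ) h2
    have h4 : L m v = 0 := hv m
    rw [h4] at h3
    exact h3)
  -- the coordinates
  set G : (ι → ℂ) → (ι → ℂ) := fun z i => y (m i) ((n : ℂ) • z) - y (m i) z with hG
  have hLn : ∀ k, fderiv ℂ (y k) ((n : ℂ) • p) = L k := by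
    intro k
    have h1 : (fun z => y k (z + ((n : ℂ) - 1) • p)) = y k := funext fun z => hyp k _ hp z
    have h2 := fderiv_comp_add_right (𝕜 := ℂ) (f := y k) (x := p) (((n : ℂ) - 1) • p)
    rw [h1, ← hnp] at h2
    exact h2.symm
  have hn1 : (n : ℂ) - 1 ≠ 0 := by
    intro h1
    have h2 : (n : ℂ) = ((1 : ℕ) : ℂ) := by
      push_cast
      linear_combination h1
    have h3 : n = 1 := by exact_mod_cast h2
    omega
  set T : (ι → ℂ) →ₗ[ℂ] (ι → ℂ) :=
    LinearMap.pi fun i => ((n : ℂ) - 1) • ((L (m i) : (ι → ℂ) →L[ℂ] ℂ) : (ι → ℂ) →ₗ[ℂ] ℂ) with hT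
  have hTinj : Function.Injective T := by
    rw [← LinearMap.ker_eq_bot, LinearMap.ker_eq_bot']
    intro v hv
    refine hm v fun i => ?_
    have h1 := congrFun hv i
    rw [hT, LinearMap.pi_apply, LinearMap.smul_apply, Pi.zero_apply, smul_eq_mul] at h1
    exact (mul_eq_zero.1 h1).resolve_left hn1
  set G' : (ι → ℂ) ≃L[ℂ] (ι → ℂ) :=
    (LinearEquiv.ofInjectiveEndo T hTinj).toContinuousLinearEquiv with hG'
  have hGd : HasStrictFDerivAt G (G' : (ι → ℂ) →L[ℂ] (ι → ℂ)) p := by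
    rw [hasStrictFDerivAt_pi']
    intro i
    have h1 : HasStrictFDerivAt (y (m i)) (L (m i)) p :=
      (hyc (m i) p hne).hasStrictFDerivAt one_ne_zero
    have h2 : HasStrictFDerivAt (y (m i)) (L (m i)) ((n : ℂ) • p) := by
      have h3 := (hyc (m i) _ hfn).hasStrictFDerivAt one_ne_zero
      rwa [hLn] at h3
    have h3 : HasStrictFDerivAt (fun z : ι → ℂ => (n : ℂ) • z)
        ((n : ℂ) • ContinuousLinearMap.id ℂ (ι → ℂ)) p :=
      (hasStrictFDerivAt_id p).const_smul (n : ℂ)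
    have h4 := (h2.comp p h3).sub h1
    refine h4.congr_fderiv ?_
    ext v
    change L (m i) ((n : ℂ) • v) - L (m i) v = ((n : ℂ) - 1) • L (m i) v
    rw [map_smul, smul_eq_mul, smul_eq_mul]
    ring
  have hG0 : G p = 0 := by
    funext i
    rw [hG]
    simp only
    rw [hnp, hyp _ _ hp, sub_self]
    rfl
  -- Siegel
  set f0 : (ι → ℂ) → ℂ := fun z => f z ^ N * f ((n : ℂ) • z) ^ 3 with hf0
  set F : Option ι → (ι → ℂ) → ℂ := fun o => o.elim Nf fun i z =>
    D3 φ (m i) ((n : ℂ) • z) * f z ^ N - D3 φ (m i) z * f z ^ (N - 3) * f ((n : ℂ) • z) ^ 3 with hF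
  have hf0a : AE f0 := (hf.pow N).mul ((hf.scale n).pow 3)
  have hFa : ∀ o, AE (F o) := by
    intro o
    rcases o with _ | i
    · exact hφ
    · exact (((AE_D3 h ha (m i)).scale n).mul (hf.pow N)).sub
        (((AE_D3 h ha (m i)).mul (hf.pow (N - 3))).mul ((hf.scale n).pow 3))
  obtain ⟨R, hR⟩ := hco
  set ρ : (ι → ℂ) → ℝ := fun z => Real.exp (-((N + 3 * n ^ 2 : ℕ) : ℝ) * (B z z).re) with hρ
  obtain ⟨Q, hQ0, hQa, hQ⟩ := siegel_taylor (κ := Option ι) (by rw [Fintype.card_option]) hf0a hFa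
    (ρ := ρ) (Real.continuous_exp.comp (continuous_const.mul hB.cont_diag))
    (fun x => Real.exp_pos _) (isCompact_closedBall (0 : ι → ℂ) R) (by
      intro x
      obtain ⟨l, hl, hl2⟩ := hR x
      refine ⟨x - l, by simpa using hl2, ea B l (x - l) ^ (N + 3 * n ^ 2), ?_, ?_, ?_⟩
      · have h1 := hqp l hl (x - l)
        have h2 := qp_n hB hqp n hl (x - l)
        rw [sub_add_cancel] at h1 h2
        rw [hf0]
        simp only
        rw [h1, h2]
        ring
      · intro o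
        have h1 := hqp l hl (x - l)
        have h2 := qp_n hB hqp n hl (x - l)
        rcases o with _ | i
        · have h3 := hφq l hl (x - l)
          rw [sub_add_cancel] at h3
          exact h3
        · have h3 := D3_qp hB h hqp hl (x - l) (m i)
          have h4 : D3 φ (m i) ((n : ℂ) • (x - l + l)) =
              ea B l (x - l) ^ (3 * n ^ 2) * D3 φ (m i) ((n : ℂ) • (x - l)) := by
            rw [smul_add, D3_qp hB h hqp (nsmul_mem' hl), ea_smul hB]
            ring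
          rw [sub_add_cancel] at h1 h2 h3 h4
          change D3 φ (m i) ((n : ℂ) • x) * f x ^ N -
            D3 φ (m i) x * f x ^ (N - 3) * f ((n : ℂ) • x) ^ 3 = ea B l (x - l) ^ (N + 3 * n ^ 2) *
            (D3 φ (m i) ((n : ℂ) • (x - l)) * f (x - l) ^ N -
            D3 φ (m i) (x - l) * f (x - l) ^ (N - 3) * f ((n : ℂ) • (x - l)) ^ 3)
          rw [h1, h2, h3, h4]
          obtain ⟨N', rfl⟩ : ∃ N', N = N' + 3 := ⟨N - 3, by omega⟩
          rw [Nat.add_sub_cancel]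
          ring
      · rw [norm_pow, hB.norm_ea, sub_add_cancel, ← Real.exp_nat_mul, hρ]
        simp only
        rw [← Real.exp_add]
        refine Real.exp_le_exp.2 (le_of_eq ?_)
        ring)
  have hc1 : ContinuousAt (fun x => Nf x / f0 x) p :=
    hφ.diff.continuous.continuousAt.div hf0a.diff.continuous.continuousAt
      (mul_ne_zero (pow_ne_zero _ hne) (pow_ne_zero _ hfn))
  refine Pool.Agent.Helper11.SH.eval_alg G G' p hGd hG0 (fun x => Nf x / f0 x) hc1 Q hQ0 hQa ?_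
  have h1 : ∀ᶠ x in 𝓝 p, f0 x ≠ 0 := hf0a.diff.continuous.continuousAt.eventually_ne
    (mul_ne_zero (pow_ne_zero _ hne) (pow_ne_zero _ hfn))
  filter_upwards [h1] with x hx
  have h2 := hQ x hx
  rw [← h2]
  refine congrArg (fun g => MvPolynomial.eval g Q) ?_
  funext o
  have hx1 : f x ≠ 0 := fun h3 => hx (by rw [hf0]; simp only; rw [h3, zero_pow (by omega), zero_mul])
  have hx2 : f ((n : ℂ) • x) ≠ 0 := fun h3 => hx (by
    rw [hf0]; simp only; rw [h3, zero_pow (by norm_num), mul_zero])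
  rcases o with _ | i
  · rfl
  · change y (m i) ((n : ℂ) • x) - y (m i) x = (D3 φ (m i) ((n : ℂ) • x) * f x ^ N -
      D3 φ (m i) x * f x ^ (N - 3) * f ((n : ℂ) • x) ^ 3) / (f x ^ N * f ((n : ℂ) • x) ^ 3)
    rw [hy]
    simp only
    obtain ⟨N', rfl⟩ : ∃ N', N = N' + 3 := ⟨N - 3, by omega⟩
    rw [Nat.add_sub_cancel]
    field_simp
    ring

end

end Pool.Agent.Helper93.SH
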